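import Mathlib
import Pool.Agent.N365.SM.E

/-!
# The Shimura maps of the newforms of all but few members of every one-parameter family of elliptic
# curves, all quadratic twists

Q1 asks for constants `κ`, `C` such that the coordinates of `H(γ)` in the basis `Ω₁`, `Ω₂` are at most
`C N ^ κ`, for all newforms `f` of level `N` with integral coefficients and all `γ ∈ Γ₀(N)` with lower
left entry `|r| ≤ N ^ 2`.  Let `J = A / D` be any non-constant rational function over `ℚ`, of degree
`d`, for example the `j`-invariant of an elliptic curve over `ℚ(T)`, and `ε > 0`.  Its poles may have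
any degree.  Among the about `B ^ 2` rational numbers `t` of height at most `B` all but `O(B ^ ε)` (all
but `O(B ^ (1 + ε))` if `J` has only one pole on the projective line), and among the integers
`|t| ≤ B` all but `O(B ^ ε)` if `D` is not constant, have the following property: for ALL elliptic
curves `E` over `ℚ` of invariant `J(t)` (all quadratic twists) the newform `f` of `E`, of level the
conductor `N`, satisfies, with `κ = 11 / 2 + 4 (d + 1) / (3 ε)`,

* `|m(γ)|, |n(γ)| ≤ ρ N ^ κ` for all `γ ∈ Γ₀(N)` with lower left entry `|r| ≤ N ^ 2`,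
* `|m(γ)|, |n(γ)| ≤ ρ N ^ (κ + 1) (1 + log |r|)` for ALL `γ ∈ Γ₀(N)` with lower left entry `r ≠ 0`.

Here `ρ` is the Manin constant of `E`: the parametrisation of `E` by the modular curve pulls the
Néron differential back to `± ρ 2 π i f(z) dz`, so that `ρ H(γ)` is in the lattice of the periods of
the Néron differential, whose invariants are `g₂ = c₄ / 12`, `g₃ = c₆ / 216` for the minimal
equation of `E`.  (`ρ = 1` for the optimal semistable curves.)

Proof.  The theorem of `Pool.Agent.N365.HY.I` gives, outside the exceptional set, primes `l ≥ 5` with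
product at least `B ^ (ε / 16)` at which `J(t)` has a pole, so they divide `N` for every twist, and the
height of `J(t)` is `O(N ^ (16 (d + 1) / ε))`.  The height `max (|c₄| ^ 3, c₆ ^ 2)` of the minimal
equation of a twist is at most the height of `J(t)` times `10 ^ 21 N ^ 5`
(`Pool.Agent.N365.SM.D`).  If `|g₂| ≤ R ^ 4` and `|g₃| ≤ R ^ 6` all non-zero periods are at least
`2 / (3 R)` in absolute value, by the power series of the Weierstrass function
(`Pool.Agent.N365.SM.A`), and `|H(γ)| ≤ 4 r ^ 2` by the coefficient bound `|a(n)| ≤ n ^ 2`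
(`Pool.Agent.N365.SM.B`).  The case of all matrices follows from that of small lower left entries
(starting file `Pool.Agent.TH133.SH`).
-/

set_option autoImplicit false
set_option linter.unusedSectionVars false

namespace Pool.Agent.Results.MP_bde085_nt.EveryOneParameterFamily

open Polynomial
open Pool.Agent.TH133.SH (IsNewform IsBasis CoordBound Hval)

/-- `W` is a global minimal Weierstrass equation: `Δ ≠ 0`, and `|Δ|` is smallest among all integral
Weierstrass equations that are obtained from `W` by a change of variables over `ℚ` -/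
def IsGlobalMinimal (W : WeierstrassCurve ℤ) : Prop :=
  W.Δ ≠ 0 ∧ ∀ W' : WeierstrassCurve ℤ,
    (∃ C : WeierstrassCurve.VariableChange ℚ,
      C • W.map (Int.castRingHom ℚ) = W'.map (Int.castRingHom ℚ)) → |W.Δ| ≤ |W'.Δ|

/-- `N₆`, the prime-to-6 part of the conductor of a global minimal equation: the product over the
primes `p ≥ 5` dividing `Δ` of `p` (multiplicative reduction, `p ∤ c₄`) or `p²` (additive,
`p ∣ c₄`) -/
def conductor6 (W : WeierstrassCurve ℤ) : ℕ :=
  ∏ p ∈ W.Δ.natAbs.primeFactors.filter (fun p => 5 ≤ p), if (p : ℤ) ∣ W.c₄ then p ^ 2 else p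

/-- the number of the solutions modulo `p` of the affine equation `W` -/
noncomputable def affineCount (W : WeierstrassCurve ℤ) (p : ℕ) : ℕ :=
  {P : ZMod p × ZMod p | P.2 ^ 2 + (W.a₁ : ZMod p) * P.1 * P.2 + (W.a₃ : ZMod p) * P.2 =
    P.1 ^ 3 + (W.a₂ : ZMod p) * P.1 ^ 2 + (W.a₄ : ZMod p) * P.1 + (W.a₆ : ZMod p)}.ncard

/-- `f = ∑ a(n) q ^ n` is the newform of level `N` of the elliptic curve with the global minimal
equation `W`, and `ρ` is the Manin constant.  By the theorems of Eichler, Shimura, Atkin, Lehner,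
Carayol, Wiles and others all newforms of Q1 and all elliptic curves over `ℚ` occur. -/
structure Attached (N : ℕ) (a : ℕ → ℤ) (W : WeierstrassCurve ℤ) (ρ : ℝ) : Prop where
  /-- `f` is a newform of level `N` with integral coefficients, as in Q1 -/
  newform : IsNewform N a
  /-- the level is divisible by the prime-to-6 part of the conductor (it is the conductor) -/
  level : conductor6 W ∣ N
  /-- the coefficients `a(p)`, for all primes `p`, including those of bad reduction -/
  trace : ∀ p : ℕ, p.Prime → a p = (p : ℤ) - (affineCount W p : ℤ)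
  /-- the Euler factors at the primes dividing the level -/
  euler : ∀ p : ℕ, p.Prime → p ∣ N → ∀ n : ℕ, a (p * n) = a p * a n
  pos : 0 < ρ
  /-- `ρ H(γ)` is in the lattice of the periods of the Néron differential `dx / (2y + a₁x + a₃)`,
  which is the lattice with the invariants `g₂ = c₄ / 12` and `g₃ = c₆ / 216` -/
  periods : ∃ L : PeriodPair, L.g₂ = (W.c₄ : ℂ) / 12 ∧ L.g₃ = (W.c₆ : ℂ) / 216 ∧
    ∀ p q r s : ℤ, p * s - q * r = 1 → (N : ℤ) ∣ r → (ρ : ℂ) * Hval a p q r s ∈ L.lattice

/-- the polynomial bounds for the coordinates `m(γ)`, `n(γ)` of the Shimura maps of the newforms of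
all elliptic curves over `ℚ` of invariant `j`, for all `γ ∈ Γ₀(N)` with lower left entry at most
`N ^ 2`, and, with logarithmic growth, for all `γ ∈ Γ₀(N)` -/
def ShimuraBound (κ : ℝ) (j : ℚ) : Prop :=
  ∀ W : WeierstrassCurve ℤ, IsGlobalMinimal W → (W.c₄ : ℚ) ^ 3 / (W.Δ : ℚ) = j →
    ∀ (N : ℕ) (a : ℕ → ℤ) (ρ : ℝ), 1 ≤ N → Attached N a W ρ → ∀ Ω₁ Ω₂ : ℂ, IsBasis N a Ω₁ Ω₂ →
      ∀ p q r s : ℤ, p * s - q * r = 1 → (N : ℤ) ∣ r →
        (|r| ≤ (N : ℤ) ^ 2 → CoordBound a Ω₁ Ω₂ p q r s (ρ * (N : ℝ) ^ κ)) ∧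
        (r ≠ 0 → CoordBound a Ω₁ Ω₂ p q r s
          (ρ * (N : ℝ) ^ (κ + 1) * (1 + Real.log |(r : ℝ)|)))

/-- `A / D` is a rational function of degree `d ≥ 1` in lowest terms -/
structure IsFunction (d : ℕ) (A D : ℤ[X]) : Prop where
  pos : 1 ≤ d
  deg_num : A.natDegree ≤ d
  deg_den : D.natDegree ≤ d
  deg : A.natDegree = d ∨ D.natDegree = d
  coprime : IsCoprime (A.map (Int.castRingHom ℚ)) (D.map (Int.castRingHom ℚ))

/-- the number of the different poles on the projective line over `ℂ` of the function `A / D` of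
degree `d`: the roots of `D`, and infinity if `deg D < d` -/
noncomputable def poleCount (d : ℕ) (D : ℤ[X]) : ℕ :=
  (D.map (Int.castRingHom ℂ)).roots.toFinset.card + if D.natDegree < d then 1 else 0

/-- the value of the polynomial `f` at the rational number `t` -/
noncomputable def value (f : ℤ[X]) (t : ℚ) : ℚ := f.eval₂ (Int.castRingHom ℚ) t

/-- `t` is not a pole of `J = A / D` and the polynomial bounds hold for the invariant `J(t)` -/
def HoldsAt (κ : ℝ) (A D : ℤ[X]) (t : ℚ) : Prop :=
  value D t ≠ 0 ∧ ShimuraBound κ (value A t / value D t)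

theorem follows (d : ℕ) {ε : ℝ} (hε : 0 < ε) :
    Pool.Agent.N365.FH.Follows (ε / 8) (d + 1)
      (fun _ j => ShimuraBound (11 / 2 + 4 * (d + 1) / (3 * ε)) j) := by
  obtain ⟨B₀, hB₀⟩ := Pool.Agent.N365.SM.shimura d hε
  refine ⟨B₀, fun B hB hB1 x y hM hx hy W hW hj N a ρ hN hA Ω₁ Ω₂ hb p q r s hdet hr => ?_⟩
  exact hB₀ B hB hB1 x y hM hx hy W hW hj N a ρ hN
    ⟨hA.newform, hA.level, hA.trace, hA.euler, hA.pos, hA.periods⟩ Ω₁ Ω₂ hb p q r s hdet hr

/-- **Theorem.** For every rational function `J = A / D` of degree `d` over `ℚ` and every `ε > 0`, all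
rational numbers `t` of height at most `B` with at most `C B ^ (1 + ε)` exceptions, with at most
`C B ^ ε` exceptions if the function has at least two poles, and all integers `|t| ≤ B` with at most
`C B ^ ε` exceptions if `D` is not constant, satisfy the bounds of Q1, with the exponent
`κ = 11 / 2 + 4 (d + 1) / (3 ε)`, for the newforms of all elliptic curves of invariant `J(t)`. -/
theorem result (d : ℕ) (A D : ℤ[X]) (h : IsFunction d A D) (ε : ℝ) (hε : 0 < ε) :
    (∃ C : ℝ, ∀ B : ℕ, 1 ≤ B → ({t : ℚ | |t.num| ≤ B ∧ t.den ≤ B ∧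
      ¬ HoldsAt (11 / 2 + 4 * (d + 1) / (3 * ε)) A D t}.ncard : ℝ) ≤ C * (B : ℝ) ^ (1 + ε)) ∧
    (2 ≤ poleCount d D → ∃ C : ℝ, ∀ B : ℕ, 1 ≤ B → ({t : ℚ | |t.num| ≤ B ∧ t.den ≤ B ∧
      ¬ HoldsAt (11 / 2 + 4 * (d + 1) / (3 * ε)) A D t}.ncard : ℝ) ≤ C * (B : ℝ) ^ ε) ∧
    (1 ≤ D.natDegree → ∃ C : ℝ, ∀ B : ℕ, 1 ≤ B → ({t : ℤ | |t| ≤ B ∧
      ¬ HoldsAt (11 / 2 + 4 * (d + 1) / (3 * ε)) A D t}.ncard : ℝ) ≤ C * (B : ℝ) ^ ε) := by
  have hR : Pool.Agent.N365.LS.Rat d A D := ⟨h.pos, h.deg_num, h.deg_den, h.deg, h.coprime⟩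
  have hpole : poleCount d D = Pool.Agent.N365.LS.poleCount d D := rfl
  obtain ⟨C, hC⟩ := Pool.Agent.N365.FH.few_rat hR hε (follows d hε)
  refine ⟨⟨max C 0, fun B hB => ?_⟩, fun h2 => ⟨C, fun B hB => ?_⟩,
    fun hD => Pool.Agent.N365.FH.few_int hR hD hε (follows d hε)⟩
  · have hB1 : (1 : ℝ) ≤ B := by exact_mod_cast hB
    refine (hC B hB).trans (mul_le_mul (le_max_left _ _) ?_ (by positivity) (le_max_right _ _))
    refine Real.rpow_le_rpow_of_exponent_le hB1 ?_
    split_ifs <;> linarith
  · have h3 := hC B hB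
    rw [if_pos (by rw [← hpole]; exact h2)] at h3
    exact h3

end Pool.Agent.Results.MP_bde085_nt.EveryOneParameterFamily
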