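import Pool.Agent.N628.CMI.Gen
import Pool.Agent.Results.MP_bde085_nt.EveryOneParameterFamily

/-!
# The Shimura maps of the members of a one-parameter family at all multiples of Carmichael's function of almost all integers

Let `J = A / D` be a non-constant rational function over `ℚ` of degree `d`, `D` not constant, for example the `j`-invariant of
an elliptic curve over `ℚ(T)`. For every `B`, `κ < 1/2` and all `m ≤ N` but `N / (log N)^U`: for EVERY multiple `w ≤ N^B` of
Carmichael's function `λ(m)` and ALL integers `t = a w + h` with `1 ≤ a ≤ N^κ`, `|h| ≤ N^κ`, the bounds of Q1, with the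
exponent `11 / 2 + 8 (d + 1) (B + 1) / (3 (1 - 2 κ))`, hold for the newforms of all elliptic curves of invariant `J(t)`. More
generally `w` is any common multiple of the values `f(p)`, `p` running through the large primes which divide `m` exactly once,
where `f` takes each positive value at boundedly many primes.

The starting point is the theorem `EveryOneParameterFamily` of this page: for every `ε > 0` there are at most `C B ^ ε`
exceptional integers up to `B`, with a suitable exponent in the bounds. But a single exceptional integer `w ≤ N^B` could be a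
multiple of `λ(m)` for more than `N^(1 - ε)` numbers `m ≤ N` (popular values). So this does not follow from the number of the
exceptional integers. The proof uses the tool `N790/CM` of helper790: outside a set of `N / (log N)^U` numbers `m ≤ N` every
`w ≤ N^B` is a common multiple for at most `N^δ` of the `m`.
-/

set_option autoImplicit false

namespace Pool.Agent.Results.MP_bde085_nt.CarmichaelMultiples

open Polynomial
open Pool.Agent.N790.CM (FewTimes Carries fewTimes_pred pred_dvd_carmichael)
open Pool.Agent.Results.MP_bde085_nt.EveryOneParameterFamily (IsFunction HoldsAt)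

/-- Let `J = A / D` be a rational function of degree `d ≥ 1` over `ℚ`, `D` not constant, `B ≥ 0`, `0 ≤ κ < 1 / 2`. For all `f`
which take each positive value at most `T` times at the primes, all `U` and all large `N`, for all `m ≤ N` but
`N / (log N)^U`: for EVERY `w` with `1 ≤ w ≤ N^B` and `f(p) ∣ w` for all primes `p > exp (√(log N))` which divide `m` exactly
once, and ALL integers `t = a w + h` with `1 ≤ a ≤ N^κ`, `|h| ≤ N^κ`, `t` is not a pole of `J` and the bounds of Q1, with the
exponent `11 / 2 + 8 (d + 1) (B + 1) / (3 (1 - 2 κ))`, hold for the newforms of all elliptic curves over `ℚ` of invariant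
`J(t)`. The function `f(p) = p - 1` takes each value at most once, and every multiple of Carmichael's function `λ(m)` is
divisible by `p - 1` for all `p ∣ m`. -/
theorem result :
    (∀ (d : ℕ) (A D : ℤ[X]), IsFunction d A D → 1 ≤ D.natDegree → ∀ B κ : ℝ, 0 ≤ B → 0 ≤ κ → κ < 1 / 2 →
      ∀ (f : ℕ → ℕ) (T : ℕ), FewTimes f T → ∀ U : ℕ, ∃ N₀ : ℕ, ∀ N : ℕ, N₀ ≤ N →
      ({m : ℕ | 1 ≤ m ∧ m ≤ N ∧ ¬ ∀ w : ℕ, 1 ≤ w → (w : ℝ) ≤ (N : ℝ) ^ B →
          Carries f (Real.exp √(Real.log N)) m w →
          ∀ t a h : ℤ, t = a * w + h → 1 ≤ a → (a : ℝ) ≤ (N : ℝ) ^ κ → |(h : ℝ)| ≤ (N : ℝ) ^ κ →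
            HoldsAt (11 / 2 + 8 * (d + 1) * (B + 1) / (3 * (1 - 2 * κ))) A D t}.ncard : ℝ) ≤
        N / Real.log N ^ U) ∧
    FewTimes (fun p => p - 1) 1 ∧
    ∀ (y : ℝ) (m w : ℕ), ArithmeticFunction.carmichael m ∣ w → Carries (fun p => p - 1) y m w := by
  refine ⟨fun d A D hA hD B κ hB hκ hκ2 f T hf U => ?_, fewTimes_pred,
    fun y m w h p hp _ hpm _ => (pred_dvd_carmichael hp hpm).trans h⟩
  have hε : 0 < (1 - 2 * κ) / (2 * (B + 1)) := div_pos (by linarith) (by linarith)
  obtain ⟨C, hC⟩ := (EveryOneParameterFamily.result d A D hA _ hε).2.2 hD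
  have hexp : (11 / 2 + 4 * ((d : ℝ) + 1) / (3 * ((1 - 2 * κ) / (2 * (B + 1))))) =
      11 / 2 + 8 * (d + 1) * (B + 1) / (3 * (1 - 2 * κ)) := by
    have h1 : 1 - 2 * κ ≠ 0 := by linarith
    have h2 : B + 1 ≠ 0 := by linarith
    field_simp
    ring
  rw [hexp] at hC
  exact Pool.Agent.N628.CMI.near
    (fun _ t => HoldsAt (11 / 2 + 8 * (d + 1) * (B + 1) / (3 * (1 - 2 * κ))) A D t) hκ hκ2 hB hC hf U

end Pool.Agent.Results.MP_bde085_nt.CarmichaelMultiples
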