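import Mathlib
import Pool.Agent.N628.BS.Core
import Pool.Agent.N141.TS.Wei
import Pool.Agent.Results.MP_bde085_nt.EveryOneParameterFamily

/-!
# The Shimura maps of the newforms of the members of families of elliptic curves with several parameters, along almost all
# sequences of polynomial growth with real parameters

Let `J = A / D` be a rational function over `ℚ` in `r` variables, for example the `j`-invariant of an elliptic curve over
`ℚ(t₁, …, t_r)`, whose reductions modulo the primes have many poles in the mean (`MeanPoles`); this is so for the universal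
family `y² = x³ + t₁ x + t₂`. Let `g_i(n)`, `i = 1, …, r`, be any real sequences with `g_i(n + 1) - g_i(n) ≥ n ^ (ρ - 1)` for
large `n`, for instance `n`, `n ²`, `n ² + n`, `√n`, `n log n`, the `n`-th prime, and let `c_i(n)` be any real sequences. For
almost all real vectors `ξ` the following holds if the integers `z_i(n) = ⌊ξ_i g_i(n) + c_i(n)⌋` grow at most polynomially
(that is, if `g_i` and `c_i` do). For all `J` and every `ε > 0` there is an exponent `κ` such that for all but `ε N` of the
integers `n` in `(N, 2 N]`, `N` large, and for all but the proportion `ε` of the primes `n` in `(N, 2 N]`, the bounds of Q1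
with the exponent `κ` hold for the newforms of all elliptic curves over `ℚ` (all quadratic twists) of invariant
`J (z_1(n), …, z_r(n))`. The same is true for almost all members of all families of twice continuously differentiable
functions whose derivatives are separated (`Spread`). Equal and integral exponents, such as `g_i(n) = n` for all `i`, are
allowed. There is one null set of vectors `ξ` for all `J` and `ε`.

The definitions (newforms attached to a curve, `ShimuraBound`) are those of `EveryOneParameterFamily`, which is about one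
parameter and all rational numbers or integers; `ThinSequences` is about the powers `n ^ c` with distinct exponents `c`.

Proof. A second moment argument over the parameters (helper668, helper54) shows that for almost all `ξ` the integer vectors
are jointly equidistributed modulo all `q ≤ N ^ δ`, over the integers and over the primes (`Pool.Agent.N54.ME`). By Turan's
sieve with the primes in `(N ^ (τ δ), N ^ δ]` (helper141, helper54), all but the proportion `ε` of the `n` have such a prime
dividing `D` and not `A`. This prime divides the level of the newforms of all curves of invariant `J`, whose height is at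
most a power of `N`, and this is enough for the bounds (`Pool.Agent.N365.SM`, helper365).
-/

set_option autoImplicit false

namespace Pool.Agent.Results.MP_bde085_nt.MetricSequences

open MvPolynomial Filter MeasureTheory
open Pool.Agent.Results.MP_bde085_nt.EveryOneParameterFamily (ShimuraBound)

/-- the sum over the primes `y < p ≤ x` of the proportion of the vectors modulo `p` that are zeros of
`D` but not of `A` is at least `δ (log log x - log log y) - C` -/
def MeanPoles {r : ℕ} (A D : MvPolynomial (Fin r) ℤ) : Prop :=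
  ∃ δ C : ℝ, 0 < δ ∧ ∀ y x : ℕ, 3 ≤ y → y ≤ x →
    δ * (Real.log (Real.log x) - Real.log (Real.log y)) - C ≤
      ∑ p ∈ (Finset.Ioc y x).filter Nat.Prime,
        ({ρ : Fin r → ZMod p | aeval ρ D = 0 ∧ aeval ρ A ≠ 0}.ncard : ℝ) / (p : ℝ) ^ r

/-- The derivatives of the consecutive functions `F n` are separated on `[u, v]` and their second derivatives increase. -/
def Spread (ρ u v : ℝ) (F : ℕ → ℝ → ℝ) : Prop :=
  (∀ n, ContDiff ℝ 2 (F n)) ∧ ∃ n₀ : ℕ, ∀ n, n₀ ≤ n → ∀ x ∈ Set.Icc u v,
    (n : ℝ) ^ (ρ - 1) ≤ deriv (F (n + 1)) x - deriv (F n) x ∧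
      deriv (deriv (F n)) x ≤ deriv (deriv (F (n + 1))) x

/-- `v` is not a pole of `A / D`, and the bounds of Q1, with the exponent `κ`, hold for the newforms of all elliptic curves
over `ℚ` of invariant `(A / D) (v)` -/
def Holds (κ : ℝ) {r : ℕ} (A D : MvPolynomial (Fin r) ℤ) (v : Fin r → ℤ) : Prop :=
  eval v D ≠ 0 ∧ ShimuraBound κ ((eval v A : ℤ) / (eval v D : ℤ))

/-- the bounds in terms of the structure of the library -/
theorem of_sh {κ : ℝ} {r : ℕ} {A D : MvPolynomial (Fin r) ℤ} {v : Fin r → ℤ}
    (h : eval v D ≠ 0 ∧ Pool.Agent.N365.SM.Sh κ ((eval v A : ℤ) / (eval v D : ℤ))) :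
    Holds κ A D v :=
  ⟨h.1, fun W hW hj N a ρ hN hA Ω₁ Ω₂ hb p q r s hdet hr => h.2 W hW hj N a ρ hN
    ⟨hA.newform, hA.level, hA.trace, hA.euler, hA.pos, hA.periods⟩ Ω₁ Ω₂ hb p q r s hdet hr⟩

/-- If the integer vectors `z n` grow at most polynomially, then for all `A`, `D` with many poles in the mean and all `ε > 0`
there are `κ` and `N₀` such that for all `N ≥ N₀` the bounds of Q1, with the exponent `κ`, hold at `(A / D) (z n)` for all but
`ε N` of the integers `n` in `(N, 2 N]` and for all but the proportion `ε` of the primes `n` in `(N, 2 N]`. -/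
def AlmostAll {r : ℕ} (z : ℕ → Fin r → ℤ) : Prop :=
  (∃ (C : ℝ) (m : ℕ), ∀ᶠ n : ℕ in atTop, ∀ i, |(z n i : ℝ)| ≤ C * (n : ℝ) ^ m) →
    ∀ A D : MvPolynomial (Fin r) ℤ, D ≠ 0 → MeanPoles A D →
      ∀ ε : ℝ, 0 < ε → ∃ (κ : ℝ) (N₀ : ℕ), ∀ N : ℕ, N₀ ≤ N →
          ({n : ℕ | n ∈ Finset.Ioc N (2 * N) ∧ ¬ Holds κ A D (z n)}.ncard : ℝ) ≤ ε * N ∧
          ({n : ℕ | n ∈ (Finset.Ioc N (2 * N)).filter Nat.Prime ∧ ¬ Holds κ A D (z n)}.ncard : ℝ) ≤
            ε * ((Finset.Ioc N (2 * N)).filter Nat.Prime).card

/-- **Theorem.** Let `r ≥ 1` and `0 < ρ ≤ 1`. (1) For all families of functions with separated derivatives, `AlmostAll` holds for the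
integer parts of `F_i(n) (ξ_i)` for almost all `ξ`. (2) For all real sequences `g_i` with `g_i(n + 1) - g_i(n) ≥ n ^ (ρ - 1)` for large
`n` and all real sequences `c_i`, `AlmostAll` holds for the integer parts of `ξ_i g_i(n) + c_i(n)` for almost all `ξ`. (3) The invariant
`6912 t₁³ / (4 t₁³ + 27 t₂²)` of the universal family `y² = x³ + t₁ x + t₂` has many poles in the mean. -/
theorem result :
    (∀ (r : ℕ) (ρ : ℝ), 0 < r → 0 < ρ → ρ ≤ 1 →
      (∀ (u v : Fin r → ℝ) (F : Fin r → ℕ → ℝ → ℝ), (∀ i, Spread ρ (u i) (v i) (F i)) →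
        ∀ᵐ ξ : Fin r → ℝ, (∀ i, ξ i ∈ Set.Ioc (u i) (v i)) → AlmostAll (fun n i => ⌊F i n (ξ i)⌋)) ∧
      (∀ g c : Fin r → ℕ → ℝ, (∀ i, ∀ᶠ n : ℕ in atTop, (n : ℝ) ^ (ρ - 1) ≤ g i (n + 1) - g i n) →
        ∀ᵐ ξ : Fin r → ℝ, AlmostAll (fun n i => ⌊ξ i * g i n + c i n⌋))) ∧
    MeanPoles (C 6912 * X 0 ^ 3 : MvPolynomial (Fin 2) ℤ) (C 4 * X 0 ^ 3 + C 27 * X 1 ^ 2) := by
  refine ⟨fun r ρ hr hρ hρ1 => ?_, Pool.Agent.N141.TS.mean_wei⟩
  have : Nonempty (Fin r) := ⟨⟨0, hr⟩⟩
  obtain ⟨h1, h2, _⟩ := Pool.Agent.N54.ME.three (ι := Fin r) hρ hρ1 AlmostAll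
    fun z hz hg A D hD hM ε hε => by
      obtain ⟨κ, N₀, hN₀⟩ := Pool.Agent.N628.BS.core hD hM
        (Pool.Agent.N54.ME.kap_pos hρ (Fintype.card (Fin r))) hz hg ε hε
      refine ⟨κ, N₀, fun N hN => ?_⟩
      obtain ⟨k1, k2⟩ := hN₀ N hN
      exact ⟨(Pool.Agent.N141.TS.ncard_mono fun n _ hn h0 => hn (of_sh h0)).trans k1,
        (Pool.Agent.N141.TS.ncard_mono fun n _ hn h0 => hn (of_sh h0)).trans k2⟩
  exact ⟨h1, h2⟩

end Pool.Agent.Results.MP_bde085_nt.MetricSequences
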