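import Mathlib
import Pool.Agent.N628.BS.Core
import Pool.Agent.N141.TS.Wei
import Pool.Agent.Results.MP_bde085_nt.EveryOneParameterFamily

/-!
# The Shimura maps of the newforms of the members of families of elliptic curves with several parameters along thin sequences

Let `J = A / D` be a rational function over `ℚ` in `r` variables, for example the `j`-invariant of an elliptic curve over
`ℚ(t₁, …, t_r)`, whose reductions modulo the primes have many poles in the mean (`MeanPoles`); this is so for the universal
family `y² = x³ + t₁ x + t₂`. Let `P_i(n) = ∑ a_x n ^ x` be sums of real powers with real coefficients whose largest exponents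
are positive, distinct and not integers and have positive coefficients, for example `n ^ √2`, `π n ^ 0.3`. For every `ε > 0`
there is an exponent `κ` such that for all but `ε N` of the integers `n` in `(N, 2 N]`, `N` large, and for all but the
proportion `ε` of the primes `n` in `(N, 2 N]`, the bounds of Q1 with the exponent `κ` hold for the newforms of all elliptic
curves over `ℚ` (all quadratic twists) of invariant `J (⌊P₁(n)⌋, …, ⌊P_r(n)⌋)`: the coordinates of `H(γ)` are at most
`ρ N_f ^ κ` for all `γ` in `Γ₀(N_f)` with lower left entry at most `N_f ^ 2`, and at most `ρ N_f ^ (κ + 1) (1 + log |r|)` for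
all `γ` with lower left entry `r ≠ 0`; `N_f` is the level and `ρ` is the Manin constant. There are at most
`N ^ (c + o(1))` invariants of this kind up to a power of `N`, so they are a thin subset of the family.

The definitions (newforms attached to a curve, `ShimuraBound`) are those of `EveryOneParameterFamily`, which is about one
parameter and all rational numbers or integers.

Proof. The integer vectors `⌊P_i(n)⌋` are jointly equidistributed modulo all `q ≤ N ^ δ`, over the integers and over the
primes (exponential sums, `Pool.Agent.N666`, helper666). By Turan's sieve with the primes in `(N ^ (τ δ), N ^ δ]`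
(helper141, helper54), all but the proportion `ε` of the `n` have such a prime dividing `D` and not `A`. This prime divides
the level of the newforms of all curves of invariant `J`, whose height is at most a power of `N`, and this is enough for the
bounds (`Pool.Agent.N365.SM`, helper365).
-/

set_option autoImplicit false

namespace Pool.Agent.Results.MP_bde085_nt.ThinSequences

open MvPolynomial
open Pool.Agent.Results.MP_bde085_nt.EveryOneParameterFamily (ShimuraBound)

/-- the sum over the primes `y < p ≤ x` of the proportion of the vectors modulo `p` that are zeros of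
`D` but not of `A` is at least `δ (log log x - log log y) - C` -/
def MeanPoles {r : ℕ} (A D : MvPolynomial (Fin r) ℤ) : Prop :=
  ∃ δ C : ℝ, 0 < δ ∧ ∀ y x : ℕ, 3 ≤ y → y ≤ x →
    δ * (Real.log (Real.log x) - Real.log (Real.log y)) - C ≤
      ∑ p ∈ (Finset.Ioc y x).filter Nat.Prime,
        ({ρ : Fin r → ZMod p | aeval ρ D = 0 ∧ aeval ρ A ≠ 0}.ncard : ℝ) / (p : ℝ) ^ r

/-- `c` is the largest exponent of the generalised polynomial `∑ a_x n ^ x`; it is positive and not
an integer and has a positive coefficient. -/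
def Admissible (F : Finset ℝ) (a : ℝ → ℝ) (c : ℝ) : Prop :=
  c ∈ F ∧ (∀ x ∈ F, x ≤ c) ∧ 0 < c ∧ (∀ m : ℕ, c ≠ m) ∧ 0 < a c

/-- the integer parts of the values at `n` of the generalised polynomials -/
noncomputable def value {r : ℕ} (F : Fin r → Finset ℝ) (a : Fin r → ℝ → ℝ) (n : ℕ) : Fin r → ℤ :=
  fun i => ⌊∑ x ∈ F i, a i x * (n : ℝ) ^ x⌋

/-- `v` is not a pole of `A / D`, and the bounds of Q1, with the exponent `κ`, hold for the newforms of all elliptic curves
over `ℚ` of invariant `(A / D) (v)` -/
def Holds (κ : ℝ) {r : ℕ} (A D : MvPolynomial (Fin r) ℤ) (v : Fin r → ℤ) : Prop :=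
  eval v D ≠ 0 ∧ ShimuraBound κ ((eval v A : ℤ) / (eval v D : ℤ))

/-- the bounds in terms of the structure of the library -/
theorem of_sh {κ : ℝ} {r : ℕ} {A D : MvPolynomial (Fin r) ℤ} {v : Fin r → ℤ}
    (h : eval v D ≠ 0 ∧ Pool.Agent.N365.SM.Sh κ ((eval v A : ℤ) / (eval v D : ℤ))) :
    Holds κ A D v :=
  ⟨h.1, fun W hW hj N a ρ hN hA Ω₁ Ω₂ hb p q r s hdet hr => h.2 W hW hj N a ρ hN
    ⟨hA.newform, hA.level, hA.trace, hA.euler, hA.pos, hA.periods⟩ Ω₁ Ω₂ hb p q r s hdet hr⟩

/-- **Theorem.** (1) For all `A`, `D` in `r` variables with many poles in the mean, all generalised polynomials `P_i` and all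
`ε > 0` there is `κ` such that the bounds of Q1, with the exponent `κ`, hold for the newforms of all elliptic curves over `ℚ`
of invariant `J (⌊P₁(n)⌋, …, ⌊P_r(n)⌋)`, `J = A / D`, for all but `ε N` of the integers `n` in `(N, 2 N]` and for all but the
proportion `ε` of the primes in `(N, 2 N]`, `N ≥ N₀`. (2) The invariant `6912 t₁³ / (4 t₁³ + 27 t₂²)` of the universal family
`y² = x³ + t₁ x + t₂` has many poles in the mean. -/
theorem result :
    (∀ (r : ℕ) (A D : MvPolynomial (Fin r) ℤ), 0 < r → D ≠ 0 → MeanPoles A D →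
      ∀ (F : Fin r → Finset ℝ) (a : Fin r → ℝ → ℝ) (c : Fin r → ℝ),
        (∀ i, Admissible (F i) (a i) (c i)) → Function.Injective c →
      ∀ ε : ℝ, 0 < ε → ∃ (κ : ℝ) (N₀ : ℕ), ∀ N : ℕ, N₀ ≤ N →
          ({n : ℕ | n ∈ Finset.Ioc N (2 * N) ∧ ¬ Holds κ A D (value F a n)}.ncard : ℝ) ≤ ε * N ∧
          ({n : ℕ | n ∈ (Finset.Ioc N (2 * N)).filter Nat.Prime ∧ ¬ Holds κ A D (value F a n)}.ncard : ℝ) ≤
            ε * ((Finset.Ioc N (2 * N)).filter Nat.Prime).card) ∧
    MeanPoles (C 6912 * X 0 ^ 3 : MvPolynomial (Fin 2) ℤ) (C 4 * X 0 ^ 3 + C 27 * X 1 ^ 2) := by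
  refine ⟨fun r A D hr hD hM F a c h hc ε hε => ?_, Pool.Agent.N141.TS.mean_wei⟩
  obtain ⟨κ₁, hκ₁, hws⟩ := Pool.Agent.N628.BS.fl_ws hr h hc
  obtain ⟨κ, N₀, hN₀⟩ := Pool.Agent.N628.BS.core hD hM hκ₁ hws (Pool.Agent.N628.BS.fl_poly F a) ε hε
  refine ⟨κ, N₀, fun N hN => ?_⟩
  obtain ⟨k1, k2⟩ := hN₀ N hN
  exact ⟨(Pool.Agent.N141.TS.ncard_mono fun n _ hn h0 => hn (of_sh h0)).trans k1,
    (Pool.Agent.N141.TS.ncard_mono fun n _ hn h0 => hn (of_sh h0)).trans k2⟩

end Pool.Agent.Results.MP_bde085_nt.ThinSequences
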